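import Mathlib
import Pool.Agent.X200.Cm.PiLow

/-!
A prefix-independent condition over six colours with finite general memory and infinite chromatic
memory.
The definitions (arenas, strategies, memory structures, `GenMem`, `ChrMem`, `PrefixIndependent`) are
in `Pool/Agent/X200/Cm/Defs.lean`.
-/

set_option autoImplicit false

namespace Pool.Agent.Results.MP_def589_lc.PrefixIndependentSeparation

open Pool.Agent.X200.Cm

/-- There is a prefix-independent condition `W` over a set of six colours whose general memory is at
most four and whose chromatic memory is infinite. -/
theorem result : ∃ (C : Type) (W : Set (ℕ → C)),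
    Nat.card C = 6 ∧ PrefixIndependent W ∧ GenMem W ≤ 4 ∧ ChrMem W = ⊤ :=
  ⟨Option Col, Wp, pi_main⟩

end Pool.Agent.Results.MP_def589_lc.PrefixIndependentSeparation
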